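import Pool.Agent.Y360.RR.Stm

/-!
PROD, LIP, LBD, LSUM.
-/

set_option autoImplicit false

open Finset

namespace Pool.Agent.Y547.RR

open Pool.Agent.Y360.RR

theorem f_eq (s θ : ℝ) : f s θ = Real.exp (-s) * ‖(Real.exp s : ℂ) - e θ‖ ^ 2 := by
  rw [← Complex.normSq_eq_norm_sq, Complex.normSq_apply]
  unfold e f
  rw [Complex.exp_mul_I]
  simp only [Complex.sub_re, Complex.sub_im, Complex.add_re, Complex.add_im, Complex.mul_re,
    Complex.mul_im, Complex.I_re, Complex.I_im, Complex.ofReal_re, Complex.ofReal_im]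
  rw [← Complex.ofReal_cos, ← Complex.ofReal_sin]
  simp only [Complex.ofReal_re, Complex.ofReal_im]
  rw [Real.cosh_eq]
  have h1 := Real.sin_sq_add_cos_sq (2 * Real.pi * θ)
  have h2 : Real.exp (-s) * Real.exp s = 1 := by rw [← Real.exp_add]; simp
  have h3 : Real.exp (-s) * Real.exp s ^ 2 = Real.exp s := by
    rw [pow_two, ← mul_assoc, h2, one_mul]
  linear_combination (-Real.exp (-s)) * h1 + 2 * Real.cos (2 * Real.pi * θ) * h2 - h3

theorem f_eq2 (s θ : ℝ) : f s θ = 4 * Real.sinh (s / 2) ^ 2 + 4 * Real.sin (Real.pi * θ) ^ 2 := by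
  unfold f
  have h1 : Real.cosh s = 1 + 2 * Real.sinh (s / 2) ^ 2 := by
    have h := Real.cosh_two_mul (s / 2)
    rw [mul_div_cancel₀ s (two_ne_zero)] at h
    have h2 := Real.cosh_sq (s / 2)
    rw [h, h2]
    ring
  have h2 : Real.cos (2 * Real.pi * θ) = 1 - 2 * Real.sin (Real.pi * θ) ^ 2 := by
    rw [mul_assoc, Real.cos_two_mul, ← Real.sin_sq_add_cos_sq (Real.pi * θ)]
    ring
  rw [h1, h2]
  ring

theorem f_pos {s : ℝ} (hs : 0 < s) (θ : ℝ) : 0 < f s θ := by
  rw [f_eq2]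
  have h1 : 0 < Real.sinh (s / 2) := Real.sinh_pos_iff.2 (by positivity)
  positivity

theorem f_ge {s : ℝ} (hs : 0 < s) (θ : ℝ) : 4 * s * |Real.sin (Real.pi * θ)| ≤ f s θ := by
  rw [f_eq2]
  have h1 : s / 2 ≤ Real.sinh (s / 2) := Real.self_le_sinh_iff.2 (by positivity)
  have h2 := abs_nonneg (Real.sin (Real.pi * θ))
  have h3 := sq_abs (Real.sin (Real.pi * θ))
  nlinarith [sq_nonneg (Real.sinh (s / 2) - |Real.sin (Real.pi * θ)|), mul_nonneg h2 (sub_nonneg.2 h1)]

theorem t_LBD : S_LBD := by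
  intro s θ hs
  unfold L
  rw [abs_div, abs_of_pos (f_pos hs θ), div_le_div_iff₀ (f_pos hs θ) hs]
  have h1 : |4 * Real.pi * Real.sin (2 * Real.pi * θ)| ≤ 8 * Real.pi * |Real.sin (Real.pi * θ)| := by
    have h2 : Real.sin (2 * Real.pi * θ) = 2 * Real.sin (Real.pi * θ) * Real.cos (Real.pi * θ) := by
      rw [mul_assoc, Real.sin_two_mul]
    rw [h2, abs_mul, abs_mul, abs_mul, abs_mul]
    have h3 := Real.abs_cos_le_one (Real.pi * θ)
    rw [abs_of_pos Real.pi_pos]
    have h4 : |(4 : ℝ)| = 4 := by norm_num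
    have h5 : |(2 : ℝ)| = 2 := by norm_num
    rw [h4, h5]
    have h6 := abs_nonneg (Real.sin (Real.pi * θ))
    have h7 := Real.pi_pos
    have h8 : 0 ≤ Real.pi * |Real.sin (Real.pi * θ)| := by positivity
    nlinarith [mul_le_mul_of_nonneg_left h3 h8]
  have h2 := f_ge hs θ
  have h3 := Real.pi_pos
  nlinarith [mul_le_mul_of_nonneg_right h1 hs.le, mul_le_mul_of_nonneg_left h2 h3.le]

theorem hasDerivAt_f (s θ : ℝ) :
    HasDerivAt (f s) (4 * Real.pi * Real.sin (2 * Real.pi * θ)) θ := by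
  have h1 : HasDerivAt (fun θ : ℝ => 2 * Real.pi * θ) (2 * Real.pi) θ := by
    simpa using (hasDerivAt_id θ).const_mul (2 * Real.pi)
  have h2 := ((Real.hasDerivAt_cos (2 * Real.pi * θ)).comp θ h1).const_mul (2 : ℝ)
  have h3 := h2.const_sub (2 * Real.cosh s)
  exact h3.congr_deriv (by ring)

theorem hasDerivAt_log {s : ℝ} (hs : 0 < s) (θ : ℝ) :
    HasDerivAt (fun θ => Real.log (f s θ)) (L s θ) θ :=
  (hasDerivAt_f s θ).log (f_pos hs θ).ne'

theorem t_LIP : S_LIP := by
  intro s hs θ d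
  have h := Convex.norm_image_sub_le_of_norm_hasDerivWithin_le (f := fun θ => Real.log (f s θ))
    (f' := L s) (C := 2 * Real.pi / s) (s := Set.univ) (x := θ) (y := θ + d)
    (fun x _ => (hasDerivAt_log hs x).hasDerivWithinAt) (fun x _ => t_LBD s x hs) convex_univ
    trivial trivial
  simpa using h

theorem prim (q : ℕ) (p : ℤ) (hq : 0 < q) (hp : IsCoprime p (q : ℤ)) :
    IsPrimitiveRoot (e (p / q)) q := by
  have h1 := Complex.isPrimitiveRoot_exp q hq.ne'
  have h2 := h1.zpow_of_gcd_eq_one p (Int.isCoprime_iff_gcd_eq_one.1 hp)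
  have h3 : e (p / q) = Complex.exp (2 * Real.pi * Complex.I / q) ^ p := by
    rw [← Complex.exp_int_mul]
    unfold e
    congr 1
    push_cast
    ring
  rwa [h3]

theorem e_add (x y : ℝ) : e (x + y) = e x * e y := by
  unfold e
  rw [← Complex.exp_add]
  congr 1
  push_cast
  ring

theorem e_nat (n : ℕ) (x : ℝ) : e (n * x) = e x ^ n := by
  unfold e
  rw [← Complex.exp_nat_mul]
  congr 1
  push_cast
  ring

theorem prod_sub {ζ : ℂ} {q : ℕ} (hq : 0 < q) (h : IsPrimitiveRoot ζ q) (x y : ℂ) :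
    ∏ i ∈ range q, (x - ζ ^ i * y) = x ^ q - y ^ q := by
  classical
  rw [h.pow_sub_pow_eq_prod_sub_mul x y hq]
  have h1 : Polynomial.nthRootsFinset q (1 : ℂ) = (range q).image fun i => ζ ^ i := by
    symm
    apply Finset.eq_of_subset_of_card_le
    · intro z hz
      obtain ⟨i, _, rfl⟩ := Finset.mem_image.1 hz
      rw [Polynomial.mem_nthRootsFinset hq]
      rw [← pow_mul, mul_comm, pow_mul, h.pow_eq_one, one_pow]
    · rw [h.card_nthRootsFinset, Finset.card_image_of_injOn, card_range]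
      intro i hi j hj hij
      exact h.pow_inj (by simpa using hi) (by simpa using hj) hij
  rw [h1, Finset.prod_image]
  intro i hi j hj hij
  exact h.pow_inj (by simpa using hi) (by simpa using hj) hij

theorem t_PROD : S_PROD := by
  intro q p hq hp s θ
  have h1 := prod_sub hq (prim q p hq hp) (Real.exp s : ℂ) (e θ)
  have h2 : ∀ i ∈ range q, f s (θ + i * (p / q)) =
      Real.exp (-s) * ‖(Real.exp s : ℂ) - e (p / q) ^ i * e θ‖ ^ 2 := by
    intro i _
    rw [f_eq, e_add, e_nat, mul_comm (e θ)]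
  rw [Finset.prod_congr rfl h2, Finset.prod_mul_distrib, Finset.prod_const, card_range,
    Finset.prod_pow, ← norm_prod, h1, f_eq, e_nat, ← Real.exp_nat_mul]
  congr 1
  · congr 1; ring
  · rw [← Complex.ofReal_pow, ← Real.exp_nat_mul]

theorem t_LSUM : S_LSUM := by
  intro q p hq hp s θ hs
  have hq' : (0 : ℝ) < q := by exact_mod_cast hq
  have h1 : ∀ θ : ℝ, ∑ i ∈ range q, Real.log (f s (θ + i * (p / q))) =
      Real.log (f (q * s) (q * θ)) := by
    intro θ
    rw [← t_PROD q p hq hp s θ, Real.log_prod]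
    intro i _
    exact (f_pos hs _).ne'
  have h2 : HasDerivAt (fun θ : ℝ => ∑ i ∈ range q, Real.log (f s (θ + i * (p / q))))
      (∑ i ∈ range q, L s (θ + i * (p / q))) θ := by
    have h3 : ∀ i ∈ range q, HasDerivAt (fun θ : ℝ => Real.log (f s (θ + i * (p / q))))
        (L s (θ + i * (p / q))) θ := by
      intro i _
      exact (hasDerivAt_log hs _).comp_add_const θ _
    exact HasDerivAt.fun_sum h3
  have h3 : HasDerivAt (fun θ : ℝ => Real.log (f (q * s) (q * θ))) (L (q * s) (q * θ) * q) θ := by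
    have h4 : HasDerivAt (fun θ : ℝ => (q : ℝ) * θ) q θ := by
      simpa using (hasDerivAt_id θ).const_mul (q : ℝ)
    exact (hasDerivAt_log (mul_pos hq' hs) (q * θ)).comp θ h4
  have h4 : (fun θ : ℝ => ∑ i ∈ range q, Real.log (f s (θ + i * (p / q)))) =
      fun θ : ℝ => Real.log (f (q * s) (q * θ)) := funext h1
  rw [h4] at h2
  rw [h2.unique h3, abs_mul, abs_of_pos hq']
  have h5 := t_LBD (q * s) (q * θ) (mul_pos hq' hs)
  calc |L (q * s) (q * θ)| * q ≤ 2 * Real.pi / (q * s) * q :=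
        mul_le_mul_of_nonneg_right h5 hq'.le
    _ = 2 * Real.pi / s := by field_simp

end Pool.Agent.Y547.RR
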